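import Mathlib

set_option autoImplicit false

open scoped ENNReal
open MeasureTheory Set

namespace Pool.Agent.H354.ME

theorem ii (s : ℝ) (hs1 : s < 1) (r : ℝ) (hr : 0 < r) :
    IntervalIntegrable (fun x : ℝ => |x| ^ (-s)) volume 0 r := by
  have h2 : IntervalIntegrable (fun x : ℝ => x ^ (-s)) volume 0 r :=
    intervalIntegral.intervalIntegrable_rpow' (by linarith)
  refine (intervalIntegrable_congr ?_).mp h2
  intro x hx
  rw [uIoc_of_le hr.le] at hx
  simp only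
  rw [abs_of_pos hx.1]

theorem ii0 (s : ℝ) (hs1 : s < 1) (r : ℝ) (hr : 0 < r) :
    ∫ x in (0 : ℝ)..r, |x| ^ (-s) = r ^ (1 - s) / (1 - s) := by
  have h1 : ∫ x in (0 : ℝ)..r, |x| ^ (-s) = ∫ x in (0 : ℝ)..r, x ^ (-s) := by
    refine intervalIntegral.integral_congr_ae (Filter.Eventually.of_forall ?_)
    intro x hx
    rw [uIoc_of_le hr.le] at hx
    rw [abs_of_pos hx.1]
  rw [h1, integral_rpow (Or.inl (by linarith))]
  rw [show -s + 1 = 1 - s by ring, Real.zero_rpow (by linarith), sub_zero]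

theorem lint (s : ℝ) (hs1 : s < 1) (r : ℝ) (hr : 0 < r) :
    ∫⁻ x in Ioc (-r) r, ENNReal.ofReal (|x| ^ (-s)) =
      ENNReal.ofReal (2 * (r ^ (1 - s) / (1 - s))) := by
  have h1 := ii s hs1 r hr
  have h4 : IntervalIntegrable (fun x : ℝ => |x| ^ (-s)) volume (-r) 0 := by
    have := h1.comp_sub_left 0
    simp only [zero_sub, abs_neg, sub_zero] at this
    exact this.symm
  have h5 := h4.trans h1
  have h6 : IntegrableOn (fun x : ℝ => |x| ^ (-s)) (Ioc (-r) r) volume :=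
    (intervalIntegrable_iff_integrableOn_Ioc_of_le (by linarith)).mp h5
  rw [← ofReal_integral_eq_lintegral_ofReal h6 (Filter.Eventually.of_forall fun x => by positivity)]
  rw [← intervalIntegral.integral_of_le (by linarith),
    ← intervalIntegral.integral_add_adjacent_intervals h4 h1]
  have h7 : ∫ x in (-r)..0, |x| ^ (-s) = ∫ x in (0 : ℝ)..r, |x| ^ (-s) := by
    have := intervalIntegral.integral_comp_neg (a := 0) (b := r) (fun x : ℝ => |x| ^ (-s))
    simp only [abs_neg, neg_zero] at this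
    exact this.symm
  rw [h7, ii0 s hs1 r hr]
  congr 1
  ring

theorem lintb (s : ℝ) (hs1 : s < 1) (r : ℝ) (hr : 0 < r) (b : ℝ) :
    ∫⁻ v in {v : ℝ | |v - b| < r}, ENNReal.ofReal (|v - b| ^ (-s)) ≤
      ENNReal.ofReal (2 * (r ^ (1 - s) / (1 - s))) := by
  have hm : MeasurableSet {v : ℝ | |v - b| < r} := measurableSet_lt (by fun_prop) (by fun_prop)
  rw [← lint s hs1 r hr, ← lintegral_indicator hm, ← lintegral_indicator measurableSet_Ioc]
  rw [← lintegral_sub_right_eq_self (μ := volume)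
    ((Ioc (-r) r).indicator fun x : ℝ => ENNReal.ofReal (|x| ^ (-s))) b]
  refine lintegral_mono fun v => ?_
  by_cases hv : v ∈ {v : ℝ | |v - b| < r}
  · have h2 : v - b ∈ Ioc (-r) r := by
      have h3 : |v - b| < r := hv
      rw [abs_lt] at h3
      exact ⟨h3.1, h3.2.le⟩
    rw [indicator_of_mem hv, indicator_of_mem h2]
  · rw [indicator_of_notMem hv]
    exact zero_le

theorem tail_core (s D : ℝ) (hs : 0 < s) (hs1 : s < 1) (hD : 0 < D)
    (μ : Measure ℝ) [IsProbabilityMeasure μ] (hμ : ∀ᵐ v ∂μ, |v| ≤ 1)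
    (hμD : ∀ A : Set ℝ, MeasurableSet A → μ A ≤ ENNReal.ofReal D * volume A)
    (θ ε : ℝ) (hε : 0 < ε) (hε1 : ε ≤ 1) (hθ : μ (Ioi θ) ≤ ENNReal.ofReal ε)
    (β : ℂ) (hβ : β.im ≠ 0) :
    ∫⁻ v in Ioi θ, ENNReal.ofReal (‖(v : ℂ) - β‖ ^ (-s)) ∂μ ≤
      ENNReal.ofReal (3 * ε ^ (1 - s) * (2 * D / (1 - s) + 1)) *
        ∫⁻ v : ℝ, ENNReal.ofReal (‖(v : ℂ) - β‖ ^ (-s)) ∂μ := by
  have hpos : ∀ v : ℝ, 0 < ‖(v : ℂ) - β‖ := by
    intro v
    rw [norm_pos_iff]
    intro h
    apply hβ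
    have := congrArg Complex.im h
    simpa using this
  have hs2 : 0 < 1 - s := by linarith
  by_cases hb : ‖β‖ ≤ 2
  · have hW : ENNReal.ofReal (1 / 3) ≤ ∫⁻ v : ℝ, ENNReal.ofReal (‖(v : ℂ) - β‖ ^ (-s)) ∂μ := by
      have h1 : ∫⁻ _v : ℝ, ENNReal.ofReal (1 / 3) ∂μ ≤
          ∫⁻ v : ℝ, ENNReal.ofReal (‖(v : ℂ) - β‖ ^ (-s)) ∂μ := by
        refine lintegral_mono_ae ?_
        filter_upwards [hμ] with v hv
        refine ENNReal.ofReal_le_ofReal ?_
        have h2 : ‖(v : ℂ) - β‖ ≤ 3 := by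
          calc ‖(v : ℂ) - β‖ ≤ ‖(v : ℂ)‖ + ‖β‖ := norm_sub_le _ _
            _ ≤ 1 + 2 := by
                rw [Complex.norm_real]
                exact add_le_add hv hb
            _ = 3 := by norm_num
        calc (1 / 3 : ℝ) = 3 ^ (-1 : ℝ) := by
              rw [Real.rpow_neg_one]; norm_num
          _ ≤ 3 ^ (-s) := Real.rpow_le_rpow_of_exponent_le (by norm_num) (by linarith)
          _ ≤ ‖(v : ℂ) - β‖ ^ (-s) := Real.rpow_le_rpow_of_nonpos (hpos v) h2 (by linarith)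
      rw [lintegral_const, measure_univ, mul_one] at h1
      exact h1
    set b := β.re with hbre
    set B : Set ℝ := {v : ℝ | |v - b| < ε} with hB
    have hBm : MeasurableSet B := measurableSet_lt (by fun_prop) (by fun_prop)
    have hle : μ ≤ ENNReal.ofReal D • volume := by
      rw [Measure.le_iff]
      intro A hA
      simpa using hμD A hA
    have hbnull : ∀ᵐ v ∂μ, v ≠ b := by
      rw [ae_iff]
      have h0 : {a : ℝ | ¬ a ≠ b} = {b} := by ext; simp
      rw [h0]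
      have := hμD {b} (measurableSet_singleton b)
      simpa using this
    have hin : ∫⁻ v in B, ENNReal.ofReal (‖(v : ℂ) - β‖ ^ (-s)) ∂μ ≤
        ENNReal.ofReal D * ENNReal.ofReal (2 * (ε ^ (1 - s) / (1 - s))) := by
      calc ∫⁻ v in B, ENNReal.ofReal (‖(v : ℂ) - β‖ ^ (-s)) ∂μ
          ≤ ∫⁻ v in B, ENNReal.ofReal (|v - b| ^ (-s)) ∂μ := by
            refine lintegral_mono_ae (ae_restrict_of_ae ?_)
            filter_upwards [hbnull] with v hv
            refine ENNReal.ofReal_le_ofReal ?_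
            refine Real.rpow_le_rpow_of_nonpos (abs_pos.mpr (sub_ne_zero.mpr hv)) ?_ (by linarith)
            have := Complex.abs_re_le_norm ((v : ℂ) - β)
            simpa using this
        _ ≤ ∫⁻ v in B, ENNReal.ofReal (|v - b| ^ (-s)) ∂(ENNReal.ofReal D • volume) := by
            exact lintegral_mono' (Measure.restrict_mono le_rfl hle) le_rfl
        _ = ENNReal.ofReal D * ∫⁻ v in B, ENNReal.ofReal (|v - b| ^ (-s)) := by
            rw [Measure.restrict_smul, lintegral_smul_measure, smul_eq_mul]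
        _ ≤ _ := by
            gcongr
            exact lintb s hs1 ε hε b
    have hout : ∫⁻ v in Ioi θ \ B, ENNReal.ofReal (‖(v : ℂ) - β‖ ^ (-s)) ∂μ ≤
        ENNReal.ofReal (ε ^ (-s)) * ENNReal.ofReal ε := by
      calc ∫⁻ v in Ioi θ \ B, ENNReal.ofReal (‖(v : ℂ) - β‖ ^ (-s)) ∂μ
          ≤ ∫⁻ _v in Ioi θ \ B, ENNReal.ofReal (ε ^ (-s)) ∂μ := by
            refine setLIntegral_mono' (measurableSet_Ioi.diff hBm) ?_
            intro v hv
            refine ENNReal.ofReal_le_ofReal ?_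
            refine Real.rpow_le_rpow_of_nonpos hε ?_ (by linarith)
            have h1 : ¬ |v - b| < ε := hv.2
            have h2 := Complex.abs_re_le_norm ((v : ℂ) - β)
            have h3 : |v - b| ≤ ‖(v : ℂ) - β‖ := by simpa using h2
            linarith [not_lt.mp h1]
        _ = ENNReal.ofReal (ε ^ (-s)) * μ (Ioi θ \ B) := by
            rw [setLIntegral_const]
        _ ≤ _ := by
            gcongr
            exact (measure_mono sdiff_subset).trans hθ
    have hT : ∫⁻ v in Ioi θ, ENNReal.ofReal (‖(v : ℂ) - β‖ ^ (-s)) ∂μ ≤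
        ENNReal.ofReal (ε ^ (1 - s) * (2 * D / (1 - s) + 1)) := by
      calc ∫⁻ v in Ioi θ, ENNReal.ofReal (‖(v : ℂ) - β‖ ^ (-s)) ∂μ
          ≤ ∫⁻ v in B ∪ (Ioi θ \ B), ENNReal.ofReal (‖(v : ℂ) - β‖ ^ (-s)) ∂μ := by
            refine lintegral_mono_set ?_
            intro v hv
            by_cases h : v ∈ B
            · exact Or.inl h
            · exact Or.inr ⟨hv, h⟩
        _ ≤ _ := lintegral_union_le _ _ _
        _ ≤ ENNReal.ofReal D * ENNReal.ofReal (2 * (ε ^ (1 - s) / (1 - s))) +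
            ENNReal.ofReal (ε ^ (-s)) * ENNReal.ofReal ε := add_le_add hin hout
        _ = ENNReal.ofReal (ε ^ (1 - s) * (2 * D / (1 - s) + 1)) := by
            have hp := Real.rpow_pos_of_pos hε (1 - s)
            rw [← ENNReal.ofReal_mul hD.le, ← ENNReal.ofReal_mul (by positivity),
              ← ENNReal.ofReal_add (by positivity) (by positivity)]
            congr 1
            have h1 : ε ^ (-s) * ε = ε ^ (1 - s) := by
              rw [show 1 - s = -s + 1 by ring, Real.rpow_add_one hε.ne']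
            rw [h1]
            field_simp
    calc ∫⁻ v in Ioi θ, ENNReal.ofReal (‖(v : ℂ) - β‖ ^ (-s)) ∂μ
        ≤ ENNReal.ofReal (ε ^ (1 - s) * (2 * D / (1 - s) + 1)) := hT
      _ = ENNReal.ofReal (3 * ε ^ (1 - s) * (2 * D / (1 - s) + 1)) * ENNReal.ofReal (1 / 3) := by
          have hp := Real.rpow_pos_of_pos hε (1 - s)
          rw [← ENNReal.ofReal_mul (by positivity)]
          congr 1
          ring
      _ ≤ _ := by gcongr
  · have hb2 : 2 < ‖β‖ := not_le.mp hb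
    have hup : ∀ v : ℝ, |v| ≤ 1 → ‖(v : ℂ) - β‖ ≤ 3 * (‖β‖ / 2) := by
      intro v hv
      calc ‖(v : ℂ) - β‖ ≤ ‖(v : ℂ)‖ + ‖β‖ := norm_sub_le _ _
        _ ≤ 1 + ‖β‖ := by
            rw [Complex.norm_real]
            exact add_le_add hv le_rfl
        _ ≤ _ := by linarith
    have hlo : ∀ v : ℝ, |v| ≤ 1 → ‖β‖ / 2 ≤ ‖(v : ℂ) - β‖ := by
      intro v hv
      have h1 : ‖β‖ - ‖(v : ℂ)‖ ≤ ‖(v : ℂ) - β‖ := by
        rw [norm_sub_rev]
        exact norm_sub_norm_le _ _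
      rw [Complex.norm_real] at h1
      have h2 : ‖v‖ ≤ 1 := hv
      linarith
    have hW : ENNReal.ofReal ((3 * (‖β‖ / 2)) ^ (-s)) ≤
        ∫⁻ v : ℝ, ENNReal.ofReal (‖(v : ℂ) - β‖ ^ (-s)) ∂μ := by
      have h1 : ∫⁻ _v : ℝ, ENNReal.ofReal ((3 * (‖β‖ / 2)) ^ (-s)) ∂μ ≤
          ∫⁻ v : ℝ, ENNReal.ofReal (‖(v : ℂ) - β‖ ^ (-s)) ∂μ := by
        refine lintegral_mono_ae ?_
        filter_upwards [hμ] with v hv
        refine ENNReal.ofReal_le_ofReal ?_
        exact Real.rpow_le_rpow_of_nonpos (hpos v) (hup v hv) (by linarith)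
      rw [lintegral_const, measure_univ, mul_one] at h1
      exact h1
    have hT : ∫⁻ v in Ioi θ, ENNReal.ofReal (‖(v : ℂ) - β‖ ^ (-s)) ∂μ ≤
        ENNReal.ofReal ((‖β‖ / 2) ^ (-s)) * ENNReal.ofReal ε := by
      calc ∫⁻ v in Ioi θ, ENNReal.ofReal (‖(v : ℂ) - β‖ ^ (-s)) ∂μ
          ≤ ∫⁻ _v in Ioi θ, ENNReal.ofReal ((‖β‖ / 2) ^ (-s)) ∂μ := by
            refine lintegral_mono_ae (ae_restrict_of_ae ?_)
            filter_upwards [hμ] with v hv
            refine ENNReal.ofReal_le_ofReal ?_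
            exact Real.rpow_le_rpow_of_nonpos (by linarith) (hlo v hv) (by linarith)
        _ = ENNReal.ofReal ((‖β‖ / 2) ^ (-s)) * μ (Ioi θ) := by rw [setLIntegral_const]
        _ ≤ _ := by gcongr
    refine hT.trans ?_
    refine le_trans ?_ (mul_le_mul_right hW _)
    have hp := Real.rpow_pos_of_pos hε (1 - s)
    rw [← ENNReal.ofReal_mul (by positivity), ← ENNReal.ofReal_mul (by positivity)]
    refine ENNReal.ofReal_le_ofReal ?_
    have hq : 0 < ‖β‖ / 2 := by linarith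
    rw [Real.mul_rpow (by norm_num) hq.le]
    have h3 : (1 / 3 : ℝ) ≤ 3 ^ (-s) := by
      calc (1 / 3 : ℝ) = 3 ^ (-1 : ℝ) := by
              rw [Real.rpow_neg_one]; norm_num
          _ ≤ 3 ^ (-s) := Real.rpow_le_rpow_of_exponent_le (by norm_num) (by linarith)
    have h4 : ε ≤ ε ^ (1 - s) := by
      calc ε = ε ^ (1 : ℝ) := (Real.rpow_one ε).symm
        _ ≤ ε ^ (1 - s) := Real.rpow_le_rpow_of_exponent_ge hε hε1 (by linarith)
    have h5 : 1 ≤ 2 * D / (1 - s) + 1 := by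
      have : 0 < 2 * D / (1 - s) := by positivity
      linarith
    have hQ := Real.rpow_pos_of_pos hq (-s)
    calc (‖β‖ / 2) ^ (-s) * ε ≤ (‖β‖ / 2) ^ (-s) * ε ^ (1 - s) := by gcongr
      _ = 3 * ε ^ (1 - s) * 1 * (1 / 3 * (‖β‖ / 2) ^ (-s)) := by ring
      _ ≤ 3 * ε ^ (1 - s) * (2 * D / (1 - s) + 1) * (3 ^ (-s) * (‖β‖ / 2) ^ (-s)) := by gcongr

end Pool.Agent.H354.ME
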