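import Pool.Agent.H121.ME.Iface
import Pool.Agent.H354.ME.TailCore

/-! # ME-TAIL (subtask 1524) -/

namespace Pool.Agent.H354.ME

open MeasureTheory

theorem s_tail : Pool.Agent.H121.ME.S_tail := by
  intro s D hs hs1 hD μ hμp hμ hμD θ ε hε hε1 hθ β hβ
  exact tail_core s D hs hs1 hD μ hμ hμD θ ε hε hε1 hθ β hβ

end Pool.Agent.H354.ME
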